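import Mathlib

namespace Pool.Agent.Lib.MP_9f1eae_lc.LD

open MvPolynomial

/-- `Lad n p`: the tuple `p` of polynomials starts a ladder of `n` left inverses. -/
def Lad : ℕ → ∀ {a c : ℕ}, (Fin a → MvPolynomial (Fin c) ℚ) → Prop
  | 0, _, _, _ => True
  | n + 1, a, c, p => ∃ (d : ℕ) (ι : Fin a ↪ Fin d) (q : Fin c → MvPolynomial (Fin d) ℚ),
      (∀ i, aeval q (p i) = X (ι i)) ∧ Lad n q

/-- `Sg n P`: the predicate `P` is `Sigma^0_n` (`Sg 0` = computable). -/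
def Sg : ℕ → ∀ {α : Type} [Primcodable α], (α → Prop) → Prop
  | 0, _, _, P => ComputablePred P
  | n + 1, α, _, P => ∃ Q : α × ℕ → Prop, Sg n Q ∧ ∀ x, P x ↔ ∃ y, ¬ Q (x, y)

/-- `B` is `Delta^0_n` for some `n`. -/
def IsArith (B : Set ℕ) : Prop := ∃ n, Sg n (fun x => x ∈ B) ∧ Sg n (fun x => x ∉ B)

end Pool.Agent.Lib.MP_9f1eae_lc.LD
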