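import Mathlib
import Pool.Agent.Lib.MP_9f1eae_lc.LD.Defs

/-! The calculus of ladders for tuples over arbitrary index types. -/

namespace Pool.Agent.Lib.MP_9f1eae_lc.LD

open MvPolynomial

/-- Ladders over arbitrary index types. -/
def LT : ℕ → ∀ {α γ : Type}, (α → MvPolynomial γ ℚ) → Prop
  | 0, _, _, _ => True
  | n + 1, α, γ, p => ∃ (δ : Type) (ι : α → δ) (q : γ → MvPolynomial δ ℚ), Function.Injective ι ∧
      (∀ i, aeval q (p i) = X (ι i)) ∧ LT n q

variable {α β γ δ ε : Type} {n : ℕ}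

theorem aeval_aeval {A : Type} [CommRing A] [Algebra ℚ A] (r : δ → A) (q : γ → MvPolynomial δ ℚ)
    (x : MvPolynomial γ ℚ) : aeval r (aeval q x) = aeval (fun v => aeval r (q v)) x := by
  rw [← AlgHom.comp_apply, comp_aeval]

theorem rename_eq (f : γ → δ) (x : MvPolynomial γ ℚ) : rename f x = aeval (fun v => X (f v)) x := by
  induction x using MvPolynomial.induction_on <;> simp_all

theorem rename_aeval (f : δ → ε) (q : γ → MvPolynomial δ ℚ) (x : MvPolynomial γ ℚ) :
    rename f (aeval q x) = aeval (fun v => rename f (q v)) x := by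
  rw [← AlgHom.comp_apply, comp_aeval]

theorem LT.res {q : γ → MvPolynomial δ ℚ} (h : LT n q) {f : β → γ} (hf : Function.Injective f) :
    LT n fun v => q (f v) := by
  cases n with
  | zero => trivial
  | succ n =>
    obtain ⟨ε, ι, r, h1, h2, h3⟩ := h
    exact ⟨ε, ι ∘ f, r, h1.comp hf, fun i => h2 _, h3⟩

theorem LT.var (n : ℕ) {ι : α → γ} (h : Function.Injective ι) :
    LT n fun i => (X (ι i) : MvPolynomial γ ℚ) := by
  induction n generalizing α with
  | zero => trivial
  | succ n ih => exact ⟨γ, ι, X, h, fun i => by simp, ih (ι := id) Function.injective_id⟩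

theorem LT.pred {p : α → MvPolynomial γ ℚ} (h : LT (n + 1) p) : LT n p := by
  induction n generalizing α γ with
  | zero => trivial
  | succ n ih =>
    obtain ⟨ε, ι, r, h1, h2, h3⟩ := h
    exact ⟨ε, ι, r, h1, h2, ih h3⟩

theorem LT.anti {p : α → MvPolynomial γ ℚ} {m : ℕ} (h : LT m p) (l : n ≤ m) : LT n p := by
  induction l with
  | refl => exact h
  | step _ ih => exact ih h.pred

theorem LT.sum {q : γ → MvPolynomial δ ℚ} (h : LT n q) (ε : Type) :
    LT n (Sum.elim (fun v => rename Sum.inl (q v)) fun w => X (Sum.inr w) :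
      γ ⊕ ε → MvPolynomial (δ ⊕ ε) ℚ) := by
  induction n generalizing γ δ with
  | zero => trivial
  | succ n ih =>
    obtain ⟨ζ, ι, r, h1, h2, h3⟩ := h
    refine ⟨ζ ⊕ ε, Sum.map ι id, _, h1.sumMap Function.injective_id, ?_, ih h3⟩
    rintro (v | w)
    · have := congrArg (rename (Sum.inl : ζ → ζ ⊕ ε)) (h2 v)
      rw [rename_aeval, rename_X] at this
      rw [Sum.elim_inl, aeval_rename]
      exact this
    · simp

theorem LT.ext {r : γ → MvPolynomial δ ℚ} (h : LT n r) {κ : γ → ε} (hκ : Function.Injective κ) :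
    ∃ r' : ε → MvPolynomial (δ ⊕ ε) ℚ, LT n r' ∧ ∀ v, r' (κ v) = rename Sum.inl (r v) := by
  classical
  let f : ε → γ ⊕ ε := fun w => if k : ∃ v, κ v = w then .inl k.choose else .inr w
  have hf : ∀ w, Sum.elim κ id (f w) = w := fun w => by
    by_cases k : ∃ v, κ v = w
    · simp [f, dif_pos k, k.choose_spec]
    · simp [f, dif_neg k]
  refine ⟨_, (h.sum ε).res (f := f) (Function.LeftInverse.injective hf), fun v => ?_⟩
  have k : ∃ v', κ v' = κ v := ⟨v, rfl⟩
  simp [f, dif_pos k, hκ k.choose_spec]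

theorem LT.comp {p : α → MvPolynomial γ ℚ} {q : γ → MvPolynomial δ ℚ} (hp : LT n p)
    (hq : LT n q) : LT n fun i => aeval q (p i) := by
  induction n generalizing α γ δ with
  | zero => trivial
  | succ n ih =>
    obtain ⟨ζ, ι, r, h1, h2, h3⟩ := hp
    obtain ⟨ε, κ, s, k1, k2, k3⟩ := hq
    obtain ⟨r', l1, l2⟩ := h3.ext k1
    refine ⟨ζ ⊕ ε, Sum.inl ∘ ι, _, Sum.inl_injective.comp h1, fun i => ?_, ih k3 l1⟩
    rw [← aeval_aeval, aeval_aeval s, aeval_aeval]
    simp only [k2, aeval_X, l2]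
    rw [← rename_aeval, h2, rename_X]
    rfl

theorem LT.ren {p : α → MvPolynomial γ ℚ} (hp : LT n p) {κ : γ → δ} (hκ : Function.Injective κ) :
    LT n fun i => rename κ (p i) := by
  simpa only [rename_eq] using hp.comp (LT.var n hκ)

theorem LT.unren {p : α → MvPolynomial γ ℚ} {κ : γ → δ} (hκ : Function.Injective κ)
    (hp : LT n fun i => rename κ (p i)) : LT n p := by
  cases n with
  | zero => trivial
  | succ n =>
    obtain ⟨ζ, ι, r, h1, h2, h3⟩ := hp
    exact ⟨ζ, ι, _, h1, fun i => (aeval_rename _ _ _).symm.trans (h2 i), h3.res hκ⟩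

theorem LT.cancel {p : α → MvPolynomial γ ℚ} {q : γ → MvPolynomial δ ℚ}
    (hp : LT n fun i => aeval q (p i)) (hq : LT (n + 1) q) : LT n p := by
  obtain ⟨ε, κ, s, k1, k2, k3⟩ := hq
  refine LT.unren k1 ?_
  have := hp.comp k3
  simpa only [aeval_aeval, k2, ← rename_eq] using this

theorem LT.iso (n : ℕ) (Φ : MvPolynomial α ℚ ≃ₐ[ℚ] MvPolynomial γ ℚ) : LT n fun i => Φ (X i) := by
  induction n generalizing α γ with
  | zero => trivial
  | succ n ih =>
    refine ⟨α, id, _, Function.injective_id, fun i => ?_, ih Φ.symm⟩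
    have : aeval (fun v => Φ.symm (X v)) = Φ.symm.toAlgHom := algHom_ext fun v => by simp
    simp [this]

theorem LT.indep {p : α → MvPolynomial γ ℚ} (h : LT 1 p) : AlgebraicIndependent ℚ p := by
  obtain ⟨δ, ι, q, h1, h2, -⟩ := h
  refine AlgebraicIndependent.of_comp (aeval q) ?_
  have : aeval q ∘ p = X ∘ ι := funext h2
  rw [this]
  exact (algebraicIndependent_X δ ℚ).comp _ h1

/-- A finite tuple lives in finitely many variables, which may be chosen to contain a given
finite family. -/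
theorem exists_fin [Finite α] [Finite β] (p : α → MvPolynomial γ ℚ) (ι : β → γ) :
    ∃ (d : ℕ) (g : Fin d → γ) (ι' : β → Fin d)
      (p' : α → MvPolynomial (Fin d) ℚ), Function.Injective g ∧ (∀ i, g (ι' i) = ι i) ∧
      ∀ i, rename g (p' i) = p i := by
  classical
  have := Fintype.ofFinite α
  have := Fintype.ofFinite β
  let s : Finset γ := (Finset.univ.biUnion fun i => (p i).vars) ∪ Finset.univ.image ι
  let g : Fin s.card → γ := fun k => s.equivFin.symm k
  have hg : Function.Injective g := Subtype.val_injective.comp s.equivFin.symm.injective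
  have hs : ∀ x ∈ s, x ∈ Set.range g := fun x hx => ⟨s.equivFin ⟨x, hx⟩, by simp [g]⟩
  choose p' hp' using fun i => exists_rename_eq_of_vars_subset_range (p i) g hg
    fun x hx => hs x (by simp only [s, Finset.mem_union, Finset.mem_biUnion]; exact .inl ⟨i, by simp, hx⟩)
  choose ι' hι' using fun i => hs (ι i) (by simp [s])
  exact ⟨_, g, ι', p', hg, hι', hp'⟩

theorem LT.fin [Finite α] [Finite γ] {p : α → MvPolynomial γ ℚ} (h : LT (n + 1) p) :
    ∃ (d : ℕ) (ι : α → Fin d) (q : γ → MvPolynomial (Fin d) ℚ), Function.Injective ι ∧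
      (∀ i, aeval q (p i) = X (ι i)) ∧ LT n q := by
  obtain ⟨δ, ι, q, h1, h2, h3⟩ := h
  obtain ⟨d, g, ι', q', k1, k2, k3⟩ := exists_fin q ι
  refine ⟨d, ι', q', fun i j l => h1 (by rw [← k2, ← k2, l]), fun i => rename_injective g k1 ?_,
    LT.unren k1 (by simpa only [k3] using h3)⟩
  rw [rename_aeval, rename_X, k2]
  simpa only [k3] using h2 i

theorem lad_iff {a c : ℕ} (p : Fin a → MvPolynomial (Fin c) ℚ) : Lad n p ↔ LT n p := by
  induction n generalizing a c with
  | zero => exact Iff.rfl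
  | succ n ih =>
    refine ⟨fun ⟨d, ι, q, h1, h2⟩ => ⟨_, ι, q, ι.injective, h1, (ih _).1 h2⟩, fun h => ?_⟩
    obtain ⟨d, ι, q, h1, h2, h3⟩ := h.fin
    exact ⟨d, ⟨ι, h1⟩, q, h2, (ih _).2 h3⟩

/-- Collapse at level `n`. -/
def Col (n : ℕ) : Prop :=
  ∀ (α γ : Type) [Finite α] (p : α → MvPolynomial γ ℚ), LT n p → LT (n + 1) p

theorem col_iff : Col n ↔
    ∀ (a c : ℕ) (p : Fin a → MvPolynomial (Fin c) ℚ), Lad n p → Lad (n + 1) p := by
  simp only [lad_iff]
  refine ⟨fun h a c p => h _ _ p, fun h α γ _ p hp => ?_⟩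
  obtain ⟨a, ⟨f⟩⟩ := Finite.exists_equiv_fin α
  obtain ⟨d, g, -, p', k1, -, k3⟩ := exists_fin p (Empty.elim : Empty → γ)
  have h1 : LT n p' := LT.unren k1 (by simpa only [k3] using hp)
  have h2 := ((h _ _ _ (h1.res f.symm.injective)).res f.injective).ren k1
  simpa only [Equiv.symm_apply_apply, k3] using h2

theorem Col.succ (h : Col n) : Col (n + 1) := by
  intro α γ _ p hp
  obtain ⟨d, g, -, p', k1, -, k3⟩ := exists_fin p (Empty.elim : Empty → γ)
  obtain ⟨δ, ι, q, h1, h2, h3⟩ : LT (n + 1) p' := LT.unren k1 (by simpa only [k3] using hp)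
  have h4 : LT (n + 1 + 1) p' := ⟨δ, ι, q, h1, h2, h _ _ _ h3⟩
  simpa only [k3] using h4.ren k1

theorem Col.all (h : Col n) [Finite α] {p : α → MvPolynomial γ ℚ} (hp : LT n p) (N : ℕ) :
    LT N p := by
  have : ∀ k, Col (n + k) ∧ LT (n + k) p := fun k => by
    induction k with
    | zero => exact ⟨h, hp⟩
    | succ k ih => exact ⟨ih.1.succ, ih.1 _ _ _ ih.2⟩
  exact (this N).2.anti (Nat.le_add_left _ _)

/-- The form with variables in `ℕ` and the inclusion as the index map. -/
theorem LT.nat {a : ℕ} {p : Fin a → MvPolynomial ℕ ℚ} (h : LT (n + 1) p) (c₀ : ℕ) :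
    ∃ (c : ℕ) (q : ℕ → MvPolynomial ℕ ℚ), c₀ ≤ c ∧
      (∀ i, p i ∈ Algebra.adjoin ℚ (X '' Set.Iio c)) ∧
      (∀ i, aeval q (p i) = X (i : ℕ)) ∧ LT n fun v : Fin c => q v := by
  classical
  obtain ⟨δ, ι, q, h1, h2, h3⟩ := h
  let c := c₀ + (Finset.univ.biUnion fun i => (p i).vars).sup id + 1
  have hc : ∀ i, p i ∈ Algebra.adjoin ℚ (X '' Set.Iio c) := fun i => by
    rw [← supported_eq_adjoin_X, mem_supported]
    intro x hx
    have : id x ≤ (Finset.univ.biUnion fun i => (p i).vars).sup id :=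
      Finset.le_sup (Finset.mem_biUnion.2 ⟨i, by simp, hx⟩)
    simp only [id, Set.mem_Iio, c] at this ⊢
    omega
  obtain ⟨d, g, ι', q', k1, k2, k3⟩ := exists_fin (fun v : Fin c => q v) ι
  let f : Fin d → ℕ := fun w => if k : ∃ i, ι' i = w then (k.choose : ℕ) else a + w
  have f1 : ∀ i, f (ι' i) = i := fun i => by
    have k : ∃ j, ι' j = ι' i := ⟨i, rfl⟩
    have : k.choose = i := h1 (by rw [← k2, ← k2, k.choose_spec])
    simp only [f, dif_pos k, this]
  have f2 : Function.Injective f := fun w w' l => by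
    by_cases k : ∃ i, ι' i = w <;> by_cases k' : ∃ i, ι' i = w'
    · obtain ⟨i, rfl⟩ := k
      obtain ⟨j, rfl⟩ := k'
      rw [f1, f1] at l
      rw [Fin.ext l]
    · simp only [f, dif_pos k, dif_neg k'] at l
      have := k.choose.2
      omega
    · simp only [f, dif_neg k, dif_pos k'] at l
      have := k'.choose.2
      omega
    · simp only [f, dif_neg k, dif_neg k'] at l
      exact Fin.ext (by omega)
  have h4 : LT n q' := LT.unren k1 (by simpa only [k3] using h3.res Fin.val_injective)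
  let q1 : ℕ → MvPolynomial (Fin d) ℚ := fun v => if k : v < c then q' ⟨v, k⟩ else 0
  refine ⟨c, fun v => rename f (q1 v), by omega, hc, fun i => ?_, ?_⟩
  · rw [← rename_aeval, ← f1, ← rename_X]
    refine congrArg _ (rename_injective g k1 ?_)
    rw [rename_X, k2, ← h2, rename_aeval]
    refine (Algebra.adjoin_le (S := AlgHom.equalizer (aeval fun v => rename g (q1 v)) (aeval q))
      ?_) (hc i)
    rintro _ ⟨v, hv, rfl⟩
    have := k3 ⟨v, hv⟩
    simpa [q1, dif_pos (show v < c from hv)] using this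
  · simpa [q1] using h4.ren f2

end Pool.Agent.Lib.MP_9f1eae_lc.LD
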