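import Mathlib
import Pool.Agent.Lib.MP_9f1eae_lc.SoftPath
import Pool.Agent.Lib.MP_9f1eae_lc.LD.Defs

/-! Closure properties of the arithmetic hierarchy and a diagonal set. -/

namespace Pool.Agent.Lib.MP_9f1eae_lc.LD

open Pool.Agent.Lib.MP_3d42d9_lc Pool.Agent.Lib.MP_9f1eae_lc Encodable Denumerable
  Nat.Partrec Nat.Partrec.Code

variable {α β : Type} [Primcodable α] [Primcodable β] {n : ℕ} {P Q : α → Prop}

theorem Sg.congr (h : Sg n P) (e : ∀ x, Q x ↔ P x) : Sg n Q := by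
  rwa [show Q = P from funext fun x => propext (e x)]

theorem sg_zero : Sg 0 P ↔ ∃ f : α → Bool, CP f ∧ ∀ x, P x ↔ f x = true := by
  refine ⟨fun ⟨_, h⟩ => ⟨_, h, fun x => by simp⟩, fun ⟨f, h1, h2⟩ => ?_⟩
  exact Sg.congr (P := fun x => f x = true) ⟨inferInstance, Computable.of_eq h1 fun p => by simp⟩ h2

theorem Sg.comp (h : Sg n P) {g : β → α} (hg : CP g) : Sg n fun x => P (g x) := by
  induction n generalizing α β with
  | zero =>
    obtain ⟨f, h1, h2⟩ := sg_zero.1 h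
    exact sg_zero.2 ⟨_, h1.comp' hg, fun x => h2 _⟩
  | succ n ih =>
    obtain ⟨R, h1, h2⟩ := h
    exact ⟨_, ih h1 (g := fun p : β × ℕ => (g p.1, p.2)) (by fun_prop), fun x => h2 _⟩

theorem Sg.not (h : Sg n P) : Sg (n + 1) fun x => ¬ P x :=
  ⟨_, h.comp (g := fun p : α × ℕ => p.1) (by fun_prop), fun x => by simp⟩

theorem Sg.succ (h : Sg n P) : Sg (n + 1) P := by
  induction n generalizing α with
  | zero =>
    obtain ⟨f, h1, h2⟩ := sg_zero.1 h
    exact (Sg.not (P := fun x => (!f x) = true) (sg_zero.2 ⟨_, h1.not, fun _ => Iff.rfl⟩)).congr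
      fun x => by simp [h2]
  | succ n ih =>
    obtain ⟨R, h1, h2⟩ := h
    exact ⟨R, ih h1, h2⟩

theorem Sg.mono {m : ℕ} (h : Sg n P) (l : n ≤ m) : Sg m P := by
  induction l with
  | refl => exact h
  | step _ ih => exact ih.succ

theorem Sg.bool {f : α → Bool} (hf : CP f) (n : ℕ) : Sg n fun x => f x = true :=
  (sg_zero.2 ⟨f, hf, fun _ => Iff.rfl⟩).mono n.zero_le

theorem Sg.and_or (h : Sg n P) (h' : Sg n Q) :
    Sg n (fun x => P x ∧ Q x) ∧ Sg n fun x => P x ∨ Q x := by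
  induction n generalizing α with
  | zero =>
    obtain ⟨f, h1, h2⟩ := sg_zero.1 h
    obtain ⟨g, h3, h4⟩ := sg_zero.1 h'
    exact ⟨sg_zero.2 ⟨_, h1.and h3, fun x => by simp [h2, h4]⟩,
      sg_zero.2 ⟨_, h1.or h3, fun x => by simp [h2, h4]⟩⟩
  | succ n ih =>
    obtain ⟨R, h1, h2⟩ := h
    obtain ⟨S, h3, h4⟩ := h'
    refine ⟨⟨_, (ih (h1.comp (g := fun p : α × ℕ => (p.1, p.2.unpair.1)) (by fun_prop))
      (h3.comp (g := fun p : α × ℕ => (p.1, p.2.unpair.2)) (by fun_prop))).2, fun x => ?_⟩,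
      ⟨_, (ih h1 h3).1, fun x => ?_⟩⟩
    · simp only [h2, h4, not_or]
      exact ⟨fun ⟨⟨a, ha⟩, b, hb⟩ => ⟨Nat.pair a b, by simpa using ⟨ha, hb⟩⟩,
        fun ⟨y, ha, hb⟩ => ⟨⟨_, ha⟩, _, hb⟩⟩
    · simp only [h2, h4, not_and_or, exists_or]

theorem Sg.ex {T : Type} [Primcodable T] [Inhabited T] {P : α × T → Prop} (h : Sg n P) :
    Sg (n + 2) fun x => ∃ t, P (x, t) :=
  ⟨_, (h.comp (g := fun p : α × ℕ => (p.1, dec T p.2)) (by fun_prop)).not, fun x => by
    simp only [not_not]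
    exact ⟨fun ⟨t, ht⟩ => ⟨encode t, by rwa [dec_encode]⟩, fun ⟨y, hy⟩ => ⟨_, hy⟩⟩⟩

/-- Arithmetic predicates. -/
def Ar (P : α → Prop) : Prop := ∃ n, Sg n P

theorem Ar.congr (h : Ar P) (e : ∀ x, Q x ↔ P x) : Ar Q := h.imp fun _ k => k.congr e
theorem Ar.comp (h : Ar P) {g : β → α} (hg : CP g) : Ar fun x => P (g x) :=
  h.imp fun _ k => k.comp hg
theorem Ar.bool {f : α → Bool} (hf : CP f) : Ar fun x => f x = true := ⟨0, Sg.bool hf 0⟩
theorem Ar.not (h : Ar P) : Ar fun x => ¬ P x := h.elim fun _ k => ⟨_, k.not⟩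
theorem Ar.and (h : Ar P) (h' : Ar Q) : Ar fun x => P x ∧ Q x := by
  obtain ⟨n, h⟩ := h
  obtain ⟨m, h'⟩ := h'
  exact ⟨_, ((h.mono (le_max_left n m)).and_or (h'.mono (le_max_right n m))).1⟩
theorem Ar.imp (h : Ar P) (h' : Ar Q) : Ar fun x => P x → Q x :=
  (h.and h'.not).not.congr fun x => by tauto
theorem Ar.or (h : Ar P) (h' : Ar Q) : Ar fun x => P x ∨ Q x :=
  (h.not.imp h').congr fun x => by tauto
theorem Ar.ex {T : Type} [Primcodable T] [Inhabited T] {P : α × T → Prop} (h : Ar P) :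
    Ar fun x => ∃ t, P (x, t) := h.elim fun _ k => ⟨_, k.ex⟩
theorem Ar.all {T : Type} [Primcodable T] [Inhabited T] {P : α × T → Prop} (h : Ar P) :
    Ar fun x => ∀ t, P (x, t) := h.not.ex.not.congr fun x => by simp
theorem Ar.isArith {B : Set ℕ} (h : Ar fun x => x ∈ B) : IsArith B :=
  h.elim fun n k => ⟨n + 1, k.succ, k.not⟩

/-- The machine `c` halts on `z.1` within `z.2` steps. -/
def hl (c z : ℕ) : Bool := (evaln z.unpair.2 (ofNat Code c) z.unpair.1).isSome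

theorem pr_hl : PR fun p : ℕ × ℕ => hl p.1 p.2 := by
  have h1 : PR (fun p : ℕ × ℕ => ofNat Code p.1) :=
    (Primrec.ofNat Code).comp (PR.primrec (by fun_prop))
  unfold hl
  exact PR.isSome (PR.comp' (g := fun p : ℕ × ℕ =>
    ((p.2.unpair.2, ofNat Code p.1), p.2.unpair.1)) primrec_evaln (by fun_prop))

/-- Universal predicates. -/
def RR : ℕ → ℕ → ℕ → Prop
  | 0, c, z => hl c z = false
  | i + 1, c, x => ∃ y, ¬ RR i c (Nat.pair x y)

theorem Sg.univ {P : ℕ → Prop} (h : Sg n P) : ∃ c, ∀ x, P x ↔ RR (n + 1) c x := by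
  induction n generalizing P with
  | zero =>
    obtain ⟨f, h1, h2⟩ := sg_zero.1 h
    have h3 : Partrec (fun m : ℕ => Nat.rfind fun _ => (Part.some (f m) : Part Bool)) :=
      Partrec.rfind (Computable.comp h1 Computable.fst).partrec.to₂
    obtain ⟨c, hc⟩ := exists_code.1 (Partrec.nat_iff.1 h3)
    refine ⟨encode c, fun x => ?_⟩
    simp only [h2, RR, hl, Nat.unpair_pair, ofNat_encode, Bool.not_eq_false]
    constructor
    · intro hb
      obtain ⟨m, hm, -⟩ := Nat.rfind_min' (p := fun _ => f x) (m := 0) hb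
      obtain ⟨k, hk⟩ := evaln_complete.1 (show m ∈ eval c x by rw [hc]; exact hm)
      exact ⟨k, Option.isSome_iff_exists.2 ⟨m, hk⟩⟩
    · rintro ⟨k, hk⟩
      obtain ⟨m, hm⟩ := Option.isSome_iff_exists.1 hk
      have := evaln_sound hm
      rw [hc] at this
      simpa using Nat.rfind_spec this
  | succ n ih =>
    obtain ⟨R, h1, h2⟩ := h
    obtain ⟨c, hc⟩ := ih (h1.comp (g := fun z : ℕ => z.unpair) (by fun_prop))
    refine ⟨c, fun x => (h2 x).trans (exists_congr fun y => not_congr ?_)⟩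
    simpa using hc (Nat.pair x y)

theorem not_sg_diag (M : ℕ) : ¬ Sg M fun k : ℕ => ¬ RR (M + 1) k k := fun h => by
  obtain ⟨c, hc⟩ := h.univ
  have := hc c
  tauto

end Pool.Agent.Lib.MP_9f1eae_lc.LD
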