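import Mathlib
import Pool.Agent.Lib.MP_9f1eae_lc.LD.Hier

/-! Arithmetic facts as trees with unique witnesses. -/

namespace Pool.Agent.Lib.MP_9f1eae_lc.LD

open Pool.Agent.Lib.MP_3d42d9_lc Pool.Agent.Lib.MP_9f1eae_lc

/-- Literals: level, sign, machine, argument. -/
abbrev At := ℕ × Bool × ℕ × ℕ

/-- Truth of a literal. -/
def av (a : At) : Prop := RR a.1 a.2.2.1 a.2.2.2 ↔ a.2.1 = true

/-- The opposite literal. -/
def flp (a : At) : At := (a.1, !a.2.1, a.2.2)

/-- The literal below. -/
def gm (a : At) (y : ℕ) : At :=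
  bif a.2.1 && Nat.blt 0 a.1 then (a.1 - 1, true, a.2.2.1, Nat.pair a.2.2.2 y) else flp a

/-- The rank. -/
def rk (a : At) : ℕ := if a.1 = 0 then 0 else if a.2.1 = true then a.1 else a.1 + 1

theorem av_flp (a : At) : av (flp a) ↔ ¬ av a := by
  obtain ⟨i, s, c, x⟩ := a
  cases s <;> simp [av, flp]

theorem av_gm (a : At) : av a ↔ ∃ y, ¬ av (gm a y) := by
  obtain ⟨i, s, c, x⟩ := a
  cases s
  · simp [gm, av_flp]
  · cases i with
    | zero => simp [gm, av_flp, Nat.blt, Nat.ble]
    | succ i => simp [gm, av, RR, Nat.blt, Nat.ble]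

theorem rk_gm (a : At) (y : ℕ) : rk (gm a y) ≤ rk a - 1 := by
  obtain ⟨i, s, c, x⟩ := a
  cases s <;> cases i <;> simp [gm, rk, flp, Nat.blt, Nat.ble]
  split_ifs <;> omega

theorem rk_flp (a : At) : rk (flp a) ≤ rk a + 1 ∧ (rk a = 0 → rk (flp a) = 0) := by
  obtain ⟨i, s, c, x⟩ := a
  cases s <;> cases i <;> simp [rk, flp]

/-- Truth of a disjunction. -/
def fv (L : List At) : Prop := ∃ a ∈ L, av a

/-- Bound for the ranks. -/
def Rk (L : List At) (h : ℕ) : Prop := ∀ a ∈ L, rk a ≤ h

/-- The literals below a disjunction. -/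
def gz (L : List At) (z : ℕ) : At := gm (L.getD z.unpair.1 (0, false, 0, 0)) z.unpair.2

theorem fv_iff (L : List At) : fv L ↔ ∃ z, ¬ av (gz L z) := by
  refine ⟨fun ⟨a, h1, h2⟩ => ?_, fun ⟨z, hz⟩ => ?_⟩
  · obtain ⟨i, hi, rfl⟩ := List.getElem_of_mem h1
    obtain ⟨y, hy⟩ := (av_gm _).1 h2
    exact ⟨Nat.pair i y, by simpa [gz, List.getD_eq_getElem?_getD, hi] using hy⟩
  · have h := (av_gm _).2 ⟨_, hz⟩
    by_cases l : z.unpair.1 < L.length
    · exact ⟨_, List.getElem_mem l, by simpa [List.getD_eq_getElem?_getD, l] using h⟩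
    · rw [List.getD_eq_default _ _ (not_lt.1 l)] at h
      simp [av, RR, hl, Nat.Partrec.Code.evaln] at h

theorem Rk.gz {L : List At} {h : ℕ} (r : Rk L (h + 1)) (z : ℕ) : rk (gz L z) ≤ h := by
  have := rk_gm (L.getD z.unpair.1 (0, false, 0, 0)) z.unpair.2
  have h2 : rk (L.getD z.unpair.1 (0, false, 0, 0)) ≤ h + 1 := by
    by_cases l : z.unpair.1 < L.length
    · rw [List.getD_eq_getElem _ _ l]
      exact r _ (List.getElem_mem l)
    · rw [List.getD_eq_default _ _ (not_lt.1 l)]
      simp [rk]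
  unfold LD.gz
  omega

/-- The child with the address `w`. -/
def child (L : List At) (w : List ℕ) : List At :=
  gz L w.length :: (List.range w.length).flatMap fun z => gm (gz L z) (w.getD z 0) ::
    (List.range (w.getD z 0)).map fun y => flp (gm (gz L z) y)

theorem Rk.child {L : List At} {h : ℕ} (r : Rk L (h + 1)) (w : List ℕ) : Rk (child L w) h := by
  intro a ha
  simp only [LD.child, List.mem_cons, List.mem_flatMap, List.mem_map] at ha
  rcases ha with rfl | ⟨z, -, rfl | ⟨y, -, rfl⟩⟩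
  · exact r.gz _
  · have := r.gz z
    have := rk_gm (LD.gz L z) (w.getD z 0)
    omega
  · have := r.gz z
    have := rk_gm (LD.gz L z) y
    have := rk_flp (gm (LD.gz L z) y)
    omega

theorem not_child (L : List At) (w : List ℕ) : ¬ fv (child L w) ↔ ¬ av (gz L w.length) ∧
    ∀ z < w.length, ¬ av (gm (gz L z) (w.getD z 0)) ∧
      ∀ y < w.getD z 0, av (gm (gz L z) y) := by
  simp only [fv, child, not_exists, not_and, List.forall_mem_cons, List.forall_mem_flatMap,
    List.forall_mem_map, List.mem_range, av_flp, not_not]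

theorem fv_child (L : List At) : fv L ↔ ∃ w, ¬ fv (child L w) := by
  classical
  rw [fv_iff]
  refine ⟨fun h => ?_, fun ⟨w, hw⟩ => ⟨_, ((not_child _ _).1 hw).1⟩⟩
  have h1 : ∀ z, ∃ y, z < Nat.find h → ¬ av (gm (gz L z) y) ∧ ∀ y' < y, av (gm (gz L z) y') := by
    intro z
    by_cases l : z < Nat.find h
    · have := (av_gm _).1 (not_not.1 (Nat.find_min h l))
      exact ⟨Nat.find this, fun _ => ⟨Nat.find_spec this,
        fun y' k => not_not.1 (Nat.find_min this k)⟩⟩
    · exact ⟨0, fun k => (l k).elim⟩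
  choose f hf using h1
  refine ⟨(List.range (Nat.find h)).map f, (not_child _ _).2 ?_⟩
  simp only [List.length_map, List.length_range]
  refine ⟨Nat.find_spec h, fun z l => ?_⟩
  have : ((List.range (Nat.find h)).map f).getD z 0 = f z := by
    simp [List.getD_eq_getElem?_getD, List.getElem?_range l]
  rw [this]
  exact hf z l

theorem child_unique {L : List At} {w w' : List ℕ} (h : ¬ fv (child L w))
    (h' : ¬ fv (child L w')) : w = w' := by
  rw [not_child] at h h'
  have l : w.length = w'.length := le_antisymm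
    (not_lt.1 fun k => h'.1 ((av_gm _).2 ⟨_, (h.2 _ k).1⟩))
    (not_lt.1 fun k => h.1 ((av_gm _).2 ⟨_, (h'.2 _ k).1⟩))
  refine List.ext_getElem l fun z k k' => ?_
  rw [← List.getD_eq_getElem _ 0 k, ← List.getD_eq_getElem _ 0 k']
  exact le_antisymm (not_lt.1 fun m => (h'.2 z k').1 ((h.2 z k).2 _ m))
    (not_lt.1 fun m => (h.2 z k).1 ((h'.2 z k').2 _ m))

/-- Evaluation at rank zero. -/
def evb (L : List At) : Bool := L.any fun a => (!hl a.2.2.1 a.2.2.2) == a.2.1

theorem Rk.evb {L : List At} (r : Rk L 0) : evb L = true ↔ fv L := by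
  simp only [LD.evb, fv, List.any_eq_true]
  refine exists_congr fun a => and_congr_right fun ha => ?_
  have := r a ha
  obtain ⟨i, s, c, x⟩ := a
  obtain rfl : i = 0 := by
    by_contra k
    cases s <;> simp [rk, k] at this
  cases s <;> simp [av, RR]

section
variable {α : Type} [Primcodable α]

@[fun_prop] theorem PR.flp {f : α → At} (hf : PR f) : PR fun x => flp (f x) := by
  unfold LD.flp
  fun_prop

@[fun_prop] theorem PR.gm {f : α → At} {g : α → ℕ} (hf : PR f) (hg : PR g) :
    PR fun x => gm (f x) (g x) := by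
  unfold LD.gm
  fun_prop

theorem pr_getD' {β : Type} [Primcodable β] (d : β) {f : α → List β} {g : α → ℕ} (hf : PR f)
    (hg : PR g) : PR fun x => (f x).getD (g x) d := (Primrec.list_getD d).comp hf hg

@[fun_prop] theorem PR.gz {f : α → List At} {g : α → ℕ} (hf : PR f) (hg : PR g) :
    PR fun x => gz (f x) (g x) :=
  PR.gm (pr_getD' _ hf (by fun_prop)) (by fun_prop)

theorem pr_child : PR fun p : List At × List ℕ => child p.1 p.2 := by
  unfold child
  have h : PR fun q : (List At × List ℕ) × ℕ => q.1.2.getD q.2 0 :=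
    pr_getD' _ (by fun_prop) (by fun_prop)
  refine PR.cons (by fun_prop) (PR.flatMap (by fun_prop) (PR.cons (PR.gm (by fun_prop) h)
    (PR.map (PR.range h) (by fun_prop))))

theorem pr_evb : PR evb := by
  unfold evb
  refine PR.any PR.id' (PR.beq (PR.not ?_) (by fun_prop))
  exact PR.comp' (g := fun p : List At × At => (p.2.2.2.1, p.2.2.2.2)) pr_hl (by fun_prop)

end

end Pool.Agent.Lib.MP_9f1eae_lc.LD
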