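import Mathlib
import Pool.Agent.Lib.MP_9f1eae_lc.SoftMain
import Pool.Agent.Lib.MP_9f1eae_lc.LD.Lad
import Pool.Agent.Lib.MP_9f1eae_lc.LD.Tree

/-! Codes: substitution, ladders of codes, split sets and copies. -/

namespace Pool.Agent.Lib.MP_9f1eae_lc.LD

open Pool.Agent.Lib.MP_3d42d9_lc Pool.Agent.Lib.MP_9f1eae_lc MvPolynomial

/-- The value of a term in the variables. -/
noncomputable abbrev vX (t : Tm) : Pq := val X t

/-- A variable as a term. -/
def var (m : ℕ) : Tm := (0, [[m]], [])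

theorem val_var {A : Type} [CommRing A] [Algebra ℚ A] (f : ℕ → A) (m : ℕ) :
    val f (var m) = f m := by simp [val, var]

theorem val_default {A : Type} [CommRing A] [Algebra ℚ A] (f : ℕ → A) :
    val f (default : Tm) = 0 := by
  change val f (0, [], []) = 0
  simp [val]

theorem aeval_vX {A : Type} [CommRing A] [Algebra ℚ A] (f : ℕ → A) (t : Tm) :
    aeval f (vX t) = val f t := map_val' _ _ _ _ fun _ _ => aeval_X _ _

/-- Substitution into a list polynomial. -/
def sbL (g : ℕ → Tm) (L : LP) : Tm :=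
  L.foldr (fun μ acc => addT (μ.foldr (fun j a => mulT (g j) a) (0, [[]], [])) acc) (0, [], [])

theorem val_sbL (g : ℕ → Tm) (L : LP) : vX (sbL g L) = ev (fun j => vX (g j)) L := by
  unfold sbL vX
  induction L with
  | nil => simp [val]
  | cons μ L ih =>
    rw [List.foldr_cons, val_addT, ih, ev_cons]
    congr 1
    induction μ with
    | nil => simp [val]
    | cons j μ ih => rw [List.foldr_cons, val_mulT, ih, List.map_cons, List.prod_cons]

/-- Substitution into a term. -/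
def sbT (g : ℕ → Tm) (t : Tm) : Tm :=
  mulT (t.1, [[]], []) (addT (sbL g t.2.1) (mulT (0, [], [[]]) (sbL g t.2.2)))

theorem val_sbT (g : ℕ → Tm) (t : Tm) : vX (sbT g t) = aeval (fun j => vX (g j)) (vX t) := by
  have h1 := val_sbL g t.2.1
  have h2 := val_sbL g t.2.2
  rw [aeval_vX]
  unfold sbT vX at *
  rw [val_mulT, val_addT, val_mulT, h1, h2]
  simp [val, sub_eq_add_neg]

section
variable {α : Type} [Primcodable α]

@[fun_prop] theorem PR.var {f : α → ℕ} (hf : PR f) : PR fun x => var (f x) := by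
  unfold LD.var
  fun_prop

theorem PR.sbL {g : α → ℕ → Tm} (hg : PR fun p : α × ℕ => g p.1 p.2) {L : α → LP} (hL : PR L) :
    PR fun x => sbL (g x) (L x) := by
  unfold LD.sbL
  refine PR.foldr hL (by fun_prop) (PR.addT ?_ (by fun_prop))
  refine PR.foldr (by fun_prop) (by fun_prop) (PR.mulT ?_ (by fun_prop))
  exact PR.comp' (g := fun p : (α × List ℕ × Tm) × ℕ × Tm => (p.1.1, p.2.1)) hg (by fun_prop)

theorem PR.sbT {g : α → ℕ → Tm} (hg : PR fun p : α × ℕ => g p.1 p.2) {t : α → Tm} (ht : PR t) :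
    PR fun x => sbT (g x) (t x) :=
  PR.mulT (by fun_prop) (PR.addT (PR.sbL hg (by fun_prop))
    (PR.mulT (by fun_prop) (PR.sbL hg (by fun_prop))))

end

theorem eqV_iff (s t : Tm) : eqV s t = true ↔ vX s = vX t := by
  rw [eqV, eqP_iff, ← val_eq_iff]

attribute [irreducible] sbT

/-- The subalgebra generated by some variables. -/
noncomputable abbrev Sup (V : Set ℕ) : Subalgebra ℚ Pq := Algebra.adjoin ℚ (X '' V)

theorem eq_on_adjoin {A B : Type} [CommRing A] [Algebra ℚ A] [CommRing B] [Algebra ℚ B]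
    {φ ψ : A →ₐ[ℚ] B} {S : Set A} (h : ∀ s ∈ S, φ s = ψ s) {x : A}
    (hx : x ∈ Algebra.adjoin ℚ S) : φ x = ψ x :=
  (Algebra.adjoin_le (S := AlgHom.equalizer φ ψ) h) hx

theorem eq_on_sup {B : Type} [CommRing B] [Algebra ℚ B] {φ ψ : Pq →ₐ[ℚ] B} {V : Set ℕ}
    (h : ∀ m ∈ V, φ (X m) = ψ (X m)) {x : Pq} (hx : x ∈ Sup V) : φ x = ψ x :=
  eq_on_adjoin (by rintro _ ⟨m, hm, rfl⟩; exact h m hm) hx

theorem map_mem_adjoin {A B : Type} [CommRing A] [Algebra ℚ A] [CommRing B] [Algebra ℚ B]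
    (φ : A →ₐ[ℚ] B) {S : Set A} {T : Subalgebra ℚ B} (h : ∀ s ∈ S, φ s ∈ T) {x : A}
    (hx : x ∈ Algebra.adjoin ℚ S) : φ x ∈ T :=
  (Algebra.adjoin_le (S := T.comap φ) h) hx

/-- The tuple with a given code. -/
noncomputable def tup (P : List Tm) (i : ℕ) : Pq := vX (P.getD i default)

/-- `Q` is a left inverse of `P`. -/
def rung (P Q : List Tm) : Bool := (List.range P.length).all fun i =>
  ((supp (P.getD i default)).all fun v => Nat.blt v Q.length) && ident Q (P.getD i default) i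

/-- The first `N` rungs are correct. -/
def chkL (N : ℕ) (Ps : List (List Tm)) : Bool :=
  (List.range N).all fun j => rung (Ps.getD j []) (Ps.getD (j + 1) [])

theorem pr_rung : PR fun p : List Tm × List Tm => rung p.1 p.2 := by
  unfold rung
  have h : PR fun q : (List Tm × List Tm) × ℕ => q.1.1.getD q.2 default :=
    pr_getD' _ (by fun_prop) (by fun_prop)
  refine PR.all (by fun_prop) (PR.and (PR.all (PR.supp h) (by fun_prop)) ?_)
  exact PR.comp' (g := fun q : (List Tm × List Tm) × ℕ => (q.1.2, q.1.1.getD q.2 default, q.2))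
    pr_ident (PR.pair (by fun_prop) (h.pair (by fun_prop)))

theorem pr_chkL : PR fun p : ℕ × List (List Tm) => chkL p.1 p.2 := by
  unfold chkL
  refine PR.all (by fun_prop) ?_
  exact PR.comp' (g := fun q : (ℕ × List (List Tm)) × ℕ =>
    (q.1.2.getD q.2 [], q.1.2.getD (q.2 + 1) [])) pr_rung
      (PR.pair (pr_getD' _ (by fun_prop) (by fun_prop)) (pr_getD' _ (by fun_prop) (by fun_prop)))

theorem rung_spec {P Q : List Tm} (h : rung P Q = true) {i : ℕ} (hi : i < P.length) :
    tup P i ∈ Sup (Set.Iio Q.length) ∧ aeval (tup Q) (tup P i) = X i := by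
  simp only [rung, List.all_eq_true, List.mem_range, Bool.and_eq_true, Nat.blt_eq] at h
  obtain ⟨h1, h2⟩ := h i hi
  exact ⟨val_mem _ _ _ fun j hj => Algebra.subset_adjoin ⟨j, h1 j hj, rfl⟩,
    (aeval_vX _ _).trans ((ident_iff _ _ _).1 h2)⟩

theorem exists_code {a : ℕ} (p : Fin a → Pq) (V : Set ℕ) (h : ∀ i, p i ∈ Sup V) :
    ∃ P : List Tm, P.length = a ∧ ∀ i : Fin a, tup P i = p i ∧
      ∀ v ∈ supp (P.getD i default), v ∈ V := by
  choose t h1 h2 using fun i => exists_term X V (h i)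
  refine ⟨List.ofFn t, List.length_ofFn, fun i => ?_⟩
  have : (List.ofFn t).getD i default = t i := by simp [List.getD_eq_getElem?_getD]
  rw [tup, this]
  exact ⟨h1 i, h2 i⟩

theorem sup_univ (x : Pq) : x ∈ Sup Set.univ := by
  rw [Sup, Set.image_univ, adjoin_range_X]
  trivial

theorem exists_finP {a : ℕ} {x : Pq} (h : x ∈ Sup (Set.Iio a)) :
    ∃ x' : MvPolynomial (Fin a) ℚ, rename Fin.val x' = x := by
  refine map_mem_adjoin (AlgHom.id ℚ Pq) (T := (rename (Fin.val : Fin a → ℕ)).range) ?_ h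
  rintro _ ⟨m, hm, rfl⟩
  exact ⟨X ⟨m, hm⟩, by simp⟩

theorem chkL_cons (N : ℕ) (P : List Tm) (Ps : List (List Tm)) :
    chkL (N + 1) (P :: Ps) = (rung P (Ps.getD 0 []) && chkL N Ps) := by
  simp [chkL, List.range_succ_eq_map, Function.comp_def]

theorem lt_of_chkL {N : ℕ} {Ps : List (List Tm)} (h : chkL N Ps = true) :
    LT N fun i : Fin (Ps.getD 0 []).length => tup (Ps.getD 0 []) i := by
  induction N generalizing Ps with
  | zero => trivial
  | succ N ih =>
    cases Ps with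
    | nil => exact ⟨ℕ, Fin.val, X, Fin.val_injective, fun i => i.elim0,
        LT.var N Function.injective_id⟩
    | cons P Ps =>
      rw [chkL_cons, Bool.and_eq_true] at h
      choose p' hp' using fun i : Fin P.length => exists_finP (rung_spec h.1 i.2).1
      have : LT (N + 1) p' := ⟨ℕ, Fin.val, _, Fin.val_injective, fun i => by
        rw [← (rung_spec h.1 i.2).2, ← hp', aeval_rename]
        rfl, ih h.2⟩
      have := this.ren Fin.val_injective
      simp only [hp'] at this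
      exact this

theorem chkL_of_lt {N a : ℕ} {p : Fin a → Pq} (h : LT N p) (P : List Tm) (h1 : P.length = a)
    (h2 : ∀ i : Fin a, tup P i = p i) : ∃ Ps, chkL N (P :: Ps) = true := by
  induction N generalizing a P with
  | zero => exact ⟨[], rfl⟩
  | succ N ih =>
    subst h1
    obtain ⟨c, q, k0, -, k2, k3⟩ := h.nat ((P.flatMap supp).sum + 1)
    obtain ⟨Q, l1, l2⟩ := exists_code (fun v : Fin c => q v) _ fun _ => sup_univ _
    obtain ⟨Ps, l3⟩ := ih k3 Q l1 fun i => (l2 i).1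
    refine ⟨Q :: Ps, ?_⟩
    rw [chkL_cons, l3, Bool.and_true, List.getD_cons_zero]
    simp only [rung, List.all_eq_true, List.mem_range, Bool.and_eq_true, Nat.blt_eq]
    intro i hi
    have m : ∀ v ∈ supp (P.getD i default), v < c := fun v hv => by
      refine lt_of_lt_of_le (Nat.lt_succ_of_le (List.single_le_sum (by simp) _
        (List.mem_flatMap.2 ⟨_, ?_, hv⟩))) k0
      rw [List.getD_eq_getElem _ _ hi]
      exact List.getElem_mem hi
    refine ⟨fun v hv => l1 ▸ m v hv, (ident_iff _ _ _).2 ?_⟩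
    rw [← k2 ⟨i, hi⟩, ← h2]
    exact (map_val' _ _ _ _ fun v hv => (aeval_X _ _).trans (l2 ⟨v, m v hv⟩).1.symm).symm

/-- A set with a retraction onto variables. -/
def Split (S : Set Pq) : Prop := ∃ ρ : Pq →ₐ[ℚ] MvPolynomial Pq ℚ, ∀ s ∈ S, ρ s = X s

theorem copy {g : ℕ → Tm} (hg : PR g) {S : Set Pq} (h1 : Split S) (h2 : S.Infinite)
    (h3 : Algebra.adjoin ℚ S = Algebra.adjoin ℚ (Set.range fun n => vX (g n))) :
    ∃ (add mul : ℕ → ℕ → ℕ) (e : ℕ ≃ Pq) (ix : ℕ → ℕ) (Ψ : Pq →ₐ[ℚ] Pq) (f : Pq → ℕ),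
      Computable₂ add ∧ Computable₂ mul ∧ (∀ i j, e (add i j) = e i + e j) ∧
      (∀ i j, e (mul i j) = e i * e j) ∧ PR ix ∧ (∀ n, e (ix n) = Ψ (vX (g n))) ∧
      Set.InjOn f S ∧ ∀ s ∈ S, Ψ s = X (f s) := by
  classical
  obtain ⟨ρ, hρ⟩ := h1
  have : Countable Pq := Function.Surjective.countable (f := vX) fun x =>
    (exists_term X _ (sup_univ x)).imp fun _ h => h.1
  have := h2.to_subtype
  obtain ⟨d⟩ : Nonempty (S ≃ ℕ) := inferInstance
  let f : Pq → ℕ := fun s => if k : s ∈ S then d ⟨s, k⟩ else 0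
  let Ψ : Pq →ₐ[ℚ] Pq := (rename f).comp ρ
  have f1 : ∀ s (k : s ∈ S), d.symm (f s) = ⟨s, k⟩ := fun s k => by simp [f, dif_pos k]
  have p1 : ∀ s ∈ S, Ψ s = X (f s) := fun s k => by simp [Ψ, hρ s k]
  have inj : ∀ x ∈ Algebra.adjoin ℚ S, aeval (fun n => (d.symm n : Pq)) (Ψ x) = x := fun x hx =>
    eq_on_adjoin (φ := (aeval fun n => (d.symm n : Pq)).comp Ψ) (ψ := AlgHom.id ℚ Pq)
      (fun s k => by simp [p1 s k, f1 s k]) hx
  let γ : ℕ → Pq := fun n => Ψ (vX (g n))
  have hv : ∀ t, val γ t = Ψ (vX (sbT g t)) := fun t => by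
    rw [val_sbT, aeval_vX]
    exact (map_val' _ _ _ _ fun _ _ => rfl).symm
  have hm : ∀ t, vX (sbT g t) ∈ Algebra.adjoin ℚ S := fun t => by
    rw [val_sbT, aeval_vX, h3]
    exact val_mem _ _ _ fun j _ => Algebra.subset_adjoin ⟨j, rfl⟩
  have hsurj : Function.Surjective (val γ) := fun x => by
    refine (exists_term γ Set.univ (map_mem_adjoin (AlgHom.id ℚ Pq) ?_ (sup_univ x))).imp
      fun _ h => h.1
    rintro _ ⟨n, -, rfl⟩
    have k : (d.symm n : Pq) ∈ Algebra.adjoin ℚ S := Algebra.subset_adjoin (d.symm n).2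
    have : X n = Ψ (d.symm n) := by simp [p1 _ (d.symm n).2, f]
    rw [h3] at k
    rw [AlgHom.id_apply, this]
    refine map_mem_adjoin Ψ ?_ k
    rintro _ ⟨j, rfl⟩
    exact Algebra.subset_adjoin ⟨j, trivial, rfl⟩
  have heq : ∀ s t, eqV (sbT g s) (sbT g t) = true ↔ val γ s = val γ t := fun s t => by
    rw [eqV_iff, hv, hv]
    exact ⟨congrArg _, fun h => by rw [← inj _ (hm s), h, inj _ (hm t)]⟩
  have pe : PR fun p : Tm × Tm => eqV p.1 p.2 := by unfold eqV; fun_prop
  have ps : PR (sbT g) := PR.sbT (g := fun _ : Tm => g) (hg.comp' (by fun_prop)) PR.id'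
  obtain ⟨e, num, rep, pnum, prep, hnum, hrep⟩ := present (val γ) hsurj _ heq
    (PR.comp' (g := fun p : Tm × Tm => (sbT g p.1, sbT g p.2)) pe (by fun_prop))
    (fun n => (0, scal n [[]], [])) (by
      intro m n h
      simpa [val] using h) (by fun_prop)
  refine ⟨fun i j => num (addT (rep i) (rep j)), fun i j => num (mulT (rep i) (rep j)), e,
    fun n => num (var n), Ψ, f, ?_, ?_, fun i j => ?_, fun i j => ?_, by fun_prop, fun n => ?_,
    fun s k s' k' l => ?_, p1⟩
  · exact (PR.comp' pnum (PR.addT (PR.comp' prep (by fun_prop))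
      (PR.comp' prep (by fun_prop)))).primrec.to_comp
  · exact (PR.comp' pnum (PR.mulT (PR.comp' prep (by fun_prop))
      (PR.comp' prep (by fun_prop)))).primrec.to_comp
  · rw [hnum, val_addT, hrep, hrep]
  · rw [hnum, val_mulT, hrep, hrep]
  · rw [hnum, val_var]
  · exact congrArg Subtype.val ((f1 s k).symm.trans (l ▸ f1 s' k'))

end Pool.Agent.Lib.MP_9f1eae_lc.LD
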