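import Mathlib
import Pool.Agent.Lib.MP_9f1eae_lc.LD.Code

/-! The gadgets. -/

namespace Pool.Agent.Lib.MP_9f1eae_lc.LD

open Pool.Agent.Lib.MP_3d42d9_lc Pool.Agent.Lib.MP_9f1eae_lc MvPolynomial Encodable

theorem Split.image {S : Set Pq} (h : Split S) (θ θ' : Pq →ₐ[ℚ] Pq) (l : ∀ x, θ' (θ x) = x) :
    Split (θ '' S) := by
  obtain ⟨ρ, hρ⟩ := h
  refine ⟨(rename θ).comp (ρ.comp θ'), ?_⟩
  rintro _ ⟨s, hs, rfl⟩
  simp [l, hρ s hs]

theorem split_X (V : Set ℕ) : Split (X '' V) :=
  ⟨rename X, by rintro _ ⟨m, -, rfl⟩; simp⟩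

theorem glue {W : Type} (a : ℕ) (ix : ℕ → W) (good : W → Prop) (T : W → Set Pq) {S : Set Pq}
    (h0 : Split S) (h1 : ∀ s ∈ S, s ∈ Sup {m | m < a ∨ ¬ good (ix m)})
    (hT : ∀ w, good w → Split (T w) ∧ (∀ u < a, X u ∈ T w) ∧
      ∀ s ∈ T w, s ∈ Sup {m | m < a ∨ ix m = w}) :
    Split (S ∪ {s | s ∉ X '' Set.Iio a ∧ ∃ w, good w ∧ s ∈ T w}) := by
  classical
  obtain ⟨ρ, hρ⟩ := h0
  have : Nonempty (Pq →ₐ[ℚ] MvPolynomial Pq ℚ) := ⟨ρ⟩
  choose! τ hτ using fun w g => (hT w g).1
  let σ : MvPolynomial Pq ℚ →ₐ[ℚ] MvPolynomial Pq ℚ :=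
    aeval fun s => if s ∈ X '' Set.Iio a then ρ s else X s
  refine ⟨aeval fun m => if m < a ∨ ¬ good (ix m) then ρ (X m) else σ (τ (ix m) (X m)), ?_⟩
  rintro s (hs | ⟨hs, w, g, k⟩)
  · rw [← hρ s hs]
    exact eq_on_sup (fun m hm => (aeval_X _ _).trans (if_pos hm)) (h1 s hs)
  · have : σ (τ w s) = X s := by rw [hτ w g s k, aeval_X, if_neg hs]
    rw [← this]
    refine eq_on_sup (ψ := σ.comp (τ w)) (fun m hm => ?_) ((hT w g).2.2 s k)
    rw [aeval_X, AlgHom.comp_apply]
    by_cases l : m < a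
    · rw [if_pos (.inl l), hτ w g _ ((hT w g).2.1 m l), aeval_X, if_pos ⟨m, l, rfl⟩]
    · obtain rfl : ix m = w := hm.resolve_left l
      rw [if_neg (by simp [l, g])]

/-- Moving the variables from `a` on into the block `w`. -/
def ke (a : ℕ) (w : List ℕ) (m : ℕ) : ℕ :=
  bif Nat.blt m a then m else a + Nat.pair (encode w) (2 * m)

/-- The substitution that attaches a child. -/
def thc (Ps : List (List Tm)) (j : ℕ) (w : List ℕ) (v : ℕ) : Tm :=
  bif Nat.blt v (Ps.getD (j + 2) []).length then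
    sbT (fun m => var (ke (Ps.getD (j + 1) []).length w m)) ((Ps.getD (j + 2) []).getD v default)
  else var ((Ps.getD (j + 1) []).length + Nat.pair (encode w) (2 * v + 1))

/-- The generators at the root of a gadget. -/
def base (Ps : List (List Tm)) (j : ℕ) (L : List At) (h u : ℕ) : Tm :=
  bif h == 0 && evb L then (Ps.getD j []).getD u default
  else bif Nat.blt u (Ps.getD (j + 1) []).length then var u else default

/-- The generators of a gadget. -/
def gc (Ps : List (List Tm)) (j : ℕ) (L : List At) (h : ℕ) (A : List (List ℕ)) (u : ℕ) : Tm :=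
  bif Nat.blt h A.length then default else
    (A.foldr (fun w s => (s.1 - 1, sbT (thc Ps (s.1 - 1) w) s.2)) (j + A.length,
      base Ps (j + A.length) (A.reverse.foldr (fun w K => child K w) L) (h - A.length) u)).2

/-- The homomorphism that attaches a child. -/
noncomputable def th (Ps : List (List Tm)) (j : ℕ) (w : List ℕ) : Pq →ₐ[ℚ] Pq :=
  aeval fun v => vX (thc Ps j w v)

variable {Ps : List (List Tm)}

theorem gc_nil (j : ℕ) (L : List At) (h u : ℕ) : gc Ps j L h [] u = base Ps j L h u := by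
  simp [gc, Nat.blt, Nat.ble]

theorem gc_zero (j : ℕ) (L : List At) (w : List ℕ) (A : List (List ℕ)) (u : ℕ) :
    gc Ps j L 0 (w :: A) u = default := by
  simp [gc, Nat.blt, Nat.ble]

theorem gc_cons (j : ℕ) (L : List At) (h : ℕ) (w : List ℕ) (A : List (List ℕ)) (u : ℕ) :
    vX (gc Ps j L (h + 1) (w :: A) u) = th Ps j w (vX (gc Ps (j + 1) (child L w) h A u)) := by
  have c : ∀ (A : List (List ℕ)) (k : ℕ) (t : Tm), (A.foldr (fun w s =>
      (s.1 - 1, sbT (thc Ps (s.1 - 1) w) s.2)) (k + A.length, t)).1 = k := fun A => by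
    induction A with
    | nil => simp
    | cons w A ih =>
      intro k t
      rw [List.foldr_cons, List.length_cons, show k + (A.length + 1) = k + 1 + A.length by omega,
        ih]
      rfl
  unfold gc
  have : Nat.blt (h + 1) (w :: A).length = Nat.blt h A.length := by
    rw [Bool.eq_iff_iff]
    simp [Nat.blt_eq]
  rw [this]
  cases Nat.blt h A.length
  · simp only [cond_false, List.foldr_cons, List.length_cons, List.reverse_cons,
      List.foldr_append, List.foldr_nil, Nat.add_sub_add_right,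
      show j + (A.length + 1) = j + 1 + A.length by omega, c, val_sbT]
    rfl
  · simp [val_default]

theorem th_lt {j v : ℕ} (w : List ℕ) (h : v < (Ps.getD (j + 2) []).length) : th Ps j w (X v) =
    rename (ke (Ps.getD (j + 1) []).length w) (tup (Ps.getD (j + 2) []) v) := by
  rw [th, aeval_X, thc, Nat.blt_eq.mpr h, cond_true, val_sbT, rename_eq]
  simp only [vX, val_var, tup]

theorem th_ge {j v : ℕ} (w : List ℕ) (h : ¬ v < (Ps.getD (j + 2) []).length) : th Ps j w (X v) =
    X ((Ps.getD (j + 1) []).length + Nat.pair (encode w) (2 * v + 1)) := by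
  have : Nat.blt v (Ps.getD (j + 2) []).length = false := by simpa [← Nat.blt_eq] using h
  rw [th, aeval_X, thc, this, cond_false, vX, val_var]

theorem ke_lt {a m : ℕ} (w : List ℕ) (h : m < a) : ke a w m = m := by
  rw [ke, Nat.blt_eq.mpr h, cond_true]

theorem ke_ge {a m : ℕ} (w : List ℕ) (h : ¬ m < a) :
    ke a w m = a + Nat.pair (encode w) (2 * m) := by
  have : Nat.blt m a = false := by simpa [← Nat.blt_eq] using h
  rw [ke, this, cond_false]

/-- The rung `j` is correct. -/
abbrev Rg (Ps : List (List Tm)) (j : ℕ) : Prop := rung (Ps.getD j []) (Ps.getD (j + 1) []) = true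

theorem th_tup {j u : ℕ} (w : List ℕ) (r : Rg Ps (j + 1)) (h : u < (Ps.getD (j + 1) []).length) :
    th Ps j w (tup (Ps.getD (j + 1) []) u) = X u := by
  obtain ⟨h1, h2⟩ := rung_spec r h
  rw [eq_on_sup (ψ := (rename (ke (Ps.getD (j + 1) []).length w)).comp
    (aeval (tup (Ps.getD (j + 2) [])))) (fun m hm => by simp [th_lt w hm]) h1,
    AlgHom.comp_apply, h2, rename_X, ke_lt w h]

theorem th_X {j i : ℕ} (w : List ℕ) (r : Rg Ps j) (r' : Rg Ps (j + 1))
    (h : i < (Ps.getD j []).length) : th Ps j w (X i) = tup (Ps.getD j []) i := by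
  obtain ⟨h1, h2⟩ := rung_spec r h
  have := eq_on_sup (φ := (th Ps j w).comp (aeval (tup (Ps.getD (j + 1) []))))
    (ψ := AlgHom.id ℚ Pq) (fun m hm => by
      rw [AlgHom.comp_apply, aeval_X, th_tup w r' hm, AlgHom.id_apply]) h1
  rwa [AlgHom.comp_apply, h2] at this

theorem len_le {j i : ℕ} (r : Rg Ps j) (r' : Rg Ps (j + 1)) (h : i < (Ps.getD j []).length) :
    i < (Ps.getD (j + 2) []).length := by
  obtain ⟨h1, h2⟩ := rung_spec r h
  have : (X i : Pq) ∈ Sup (Set.Iio (Ps.getD (j + 2) []).length) := by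
    rw [← h2]
    refine map_mem_adjoin _ ?_ h1
    rintro _ ⟨m, hm, rfl⟩
    rw [aeval_X]
    exact (rung_spec r' hm).1
  rwa [Sup, ← supported_eq_adjoin_X, X_mem_supported] at this

theorem th_inv {j : ℕ} (w : List ℕ) (r : Rg Ps (j + 2)) :
    ∃ θ : Pq →ₐ[ℚ] Pq, ∀ x, θ (th Ps j w x) = x := by
  let a := (Ps.getD (j + 1) []).length
  let p := tup (Ps.getD (j + 3) [])
  let θ : Pq →ₐ[ℚ] Pq := aeval fun m => if m < a then p m else
    if (m - a).unpair.2 % 2 = 0 then p ((m - a).unpair.2 / 2) else X ((m - a).unpair.2 / 2)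
  refine ⟨θ, fun x => eq_on_sup (φ := θ.comp (th Ps j w)) (ψ := AlgHom.id ℚ Pq)
    (fun v _ => ?_) (sup_univ x)⟩
  rw [AlgHom.comp_apply, AlgHom.id_apply]
  by_cases h : v < (Ps.getD (j + 2) []).length
  · rw [th_lt w h, aeval_rename, ← (rung_spec r h).2]
    congr 2
    funext m
    by_cases l : m < a
    · rw [Function.comp_apply, ke_lt w l, if_pos l]
    · rw [Function.comp_apply, ke_ge w l]
      simp [p, a]
  · rw [th_ge w h]
    have : (2 * v + 1) / 2 = v := by omega
    simp [θ, a, this]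

theorem th_sup (j : ℕ) (w : List ℕ) (x : Pq) : th Ps j w x ∈ Sup {m | m < (Ps.getD (j + 1) []).length
    ∨ dec (List ℕ) (m - (Ps.getD (j + 1) []).length).unpair.1 = w} := by
  refine map_mem_adjoin _ ?_ (sup_univ x)
  rintro _ ⟨v, -, rfl⟩
  by_cases h : v < (Ps.getD (j + 2) []).length
  · rw [th_lt w h]
    refine map_mem_adjoin _ ?_ (sup_univ _)
    rintro _ ⟨m, -, rfl⟩
    refine Algebra.subset_adjoin ⟨_, ?_, (rename_X _ _).symm⟩
    by_cases l : m < (Ps.getD (j + 1) []).length
    · exact .inl (by rwa [ke_lt w l])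
    · exact .inr (by rw [ke_ge w l]; simp [dec_encode])
  · rw [th_ge w h]
    exact Algebra.subset_adjoin ⟨_, .inr (by simp [dec_encode]), rfl⟩

/-- The gadget. -/
noncomputable def Gd (Ps : List (List Tm)) (j : ℕ) (L : List At) (h : ℕ) : Subalgebra ℚ Pq :=
  Algebra.adjoin ℚ (Set.range fun x : List (List ℕ) × ℕ => vX (gc Ps j L h x.1 x.2))

theorem base_X {j h u : ℕ} {L : List At} (c : (h == 0 && evb L) = false) : vX (base Ps j L h u) =
    if u < (Ps.getD (j + 1) []).length then X u else 0 := by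
  rw [base, c, cond_false]
  split_ifs with l
  · rw [Nat.blt_eq.mpr l, cond_true, vX, val_var]
  · have : Nat.blt u (Ps.getD (j + 1) []).length = false := by simpa [← Nat.blt_eq] using l
    rw [this, cond_false, vX, val_default]

theorem gad (h j : ℕ) (L : List At) (rk : Rk L h) (r : ∀ i ≤ j + h + 1, Rg Ps i) :
    ∃ S, Split S ∧ Algebra.adjoin ℚ S = Gd Ps j L h ∧
      (fv L → ∀ i < (Ps.getD j []).length, tup (Ps.getD j []) i ∈ S) ∧
      (¬ fv L → ∀ u < (Ps.getD (j + 1) []).length, X u ∈ S) := by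
  classical
  induction h generalizing j L with
  | zero =>
    by_cases c : fv L
    · have b : ∀ u, vX (gc Ps j L 0 [] u) = tup (Ps.getD j []) u := fun u => by
        simp [gc_nil, base, rk.evb.2 c, tup]
      refine ⟨tup (Ps.getD j []) '' Set.Iio (Ps.getD j []).length,
        ⟨(aeval fun i => X (tup (Ps.getD j []) i)).comp (aeval (tup (Ps.getD (j + 1) []))), ?_⟩,
        le_antisymm (Algebra.adjoin_mono ?_) (Algebra.adjoin_le ?_), fun _ i hi => ⟨i, hi, rfl⟩,
        fun k => (k c).elim⟩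
      · rintro _ ⟨i, hi, rfl⟩
        rw [AlgHom.comp_apply, (rung_spec (r j (by omega)) hi).2, aeval_X]
      · rintro _ ⟨i, -, rfl⟩
        exact ⟨([], i), b i⟩
      · rintro _ ⟨⟨_ | ⟨w, A⟩, u⟩, rfl⟩
        · by_cases l : u < (Ps.getD j []).length
          · exact Algebra.subset_adjoin ⟨u, l, (b u).symm⟩
          · simp only [b, tup, List.getD_eq_default _ _ (not_lt.1 l), vX, val_default]
            exact zero_mem _
        · simp only [gc_zero, vX, val_default]
          exact zero_mem _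
    · have b : (0 == 0 && evb L) = false := by simpa [← rk.evb] using c
      refine ⟨X '' Set.Iio (Ps.getD (j + 1) []).length, split_X _,
        le_antisymm (Algebra.adjoin_mono ?_) (Algebra.adjoin_le ?_), fun k => (c k).elim,
        fun _ u hu => ⟨u, hu, rfl⟩⟩
      · rintro _ ⟨i, hi, rfl⟩
        exact ⟨([], i), by simp only [gc_nil, base_X b, if_pos (show i < _ from hi)]⟩
      · rintro _ ⟨⟨_ | ⟨w, A⟩, u⟩, rfl⟩
        · simp only [gc_nil, base_X b]
          split_ifs with l
          · exact Algebra.subset_adjoin ⟨u, l, rfl⟩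
          · exact zero_mem _
        · simp only [gc_zero, vX, val_default]
          exact zero_mem _
  | succ h ih =>
    choose T t1 t2 t3 t4 using fun w => ih (j + 1) (child L w) (rk.child w)
      fun i hi => r i (by omega)
    have b : (h + 1 == 0 && evb L) = false := by simp
    have g1 : ∀ u < (Ps.getD (j + 1) []).length, X u ∈ Gd Ps j L (h + 1) := fun u hu =>
      Algebra.subset_adjoin ⟨([], u), by simp only [gc_nil, base_X b, if_pos hu]⟩
    have g2 : ∀ w, ∀ s ∈ th Ps j w '' T w, s ∈ Gd Ps j L (h + 1) := by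
      rintro w _ ⟨s, hs, rfl⟩
      refine map_mem_adjoin _ ?_ ((t2 w).le (Algebra.subset_adjoin hs))
      rintro _ ⟨x, rfl⟩
      exact Algebra.subset_adjoin ⟨(w :: x.1, x.2), gc_cons ..⟩
    have sp : ∀ w, Split (th Ps j w '' T w) := fun w =>
      (th_inv w (r (j + 2) (by omega))).elim fun θ k => (t1 w).image _ θ k
    obtain ⟨S, s1, s2, s3, s4, s5, s6, s7⟩ : ∃ S, Split S ∧
        (∀ s ∈ S, s ∈ Sup {m | m < (Ps.getD (j + 1) []).length ∨ ¬ fv (child L
          (dec (List ℕ) (m - (Ps.getD (j + 1) []).length).unpair.1))}) ∧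
        (∀ s ∈ S, s ∈ Gd Ps j L (h + 1)) ∧
        (∀ u < (Ps.getD (j + 1) []).length, X u ∈ Algebra.adjoin ℚ S) ∧
        (∀ w, ¬ fv (child L w) → th Ps j w '' T w ⊆ S) ∧
        (fv L → ∀ i < (Ps.getD j []).length, tup (Ps.getD j []) i ∈ S) ∧
        (¬ fv L → ∀ u < (Ps.getD (j + 1) []).length, X u ∈ S) := by
      by_cases c : fv L
      · obtain ⟨w, hw⟩ := (fv_child L).1 c
        refine ⟨_, sp w, ?_, g2 w, fun u hu => ?_, fun w' k => by rw [child_unique k hw],
          fun _ i hi => ⟨X i, t4 w hw i (len_le (r j (by omega)) (r _ (by omega)) hi),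
            th_X w (r j (by omega)) (r _ (by omega)) hi⟩, fun k => (k c).elim⟩
        · rintro _ ⟨s, -, rfl⟩
          refine Algebra.adjoin_mono (Set.image_mono fun m hm => ?_) (th_sup j w s)
          exact hm.imp_right fun k => by rwa [k]
        · rw [← th_tup w (r _ (by omega)) hu]
          refine map_mem_adjoin _ ?_ (rung_spec (r (j + 1) (by omega)) hu).1
          rintro _ ⟨m, hm, rfl⟩
          exact Algebra.subset_adjoin ⟨_, t4 w hw m hm, rfl⟩
      · refine ⟨_, split_X (Set.Iio (Ps.getD (j + 1) []).length), ?_, ?_,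
          fun u hu => Algebra.subset_adjoin ⟨u, hu, rfl⟩,
          fun w k => (c ((fv_child L).2 ⟨w, k⟩)).elim, fun k => (c k).elim,
          fun _ u hu => ⟨u, hu, rfl⟩⟩
        · rintro _ ⟨u, hu, rfl⟩
          exact Algebra.subset_adjoin ⟨u, .inl hu, rfl⟩
        · rintro _ ⟨u, hu, rfl⟩
          exact g1 u hu
    refine ⟨_, glue _ _ (fun w => fv (child L w)) (fun w => th Ps j w '' T w) s1 s2
      fun w g => ⟨sp w, fun u hu => ⟨_, t3 w g u hu, th_tup w (r _ (by omega)) hu⟩, ?_⟩,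
      le_antisymm (Algebra.adjoin_le ?_) (Algebra.adjoin_le ?_), fun c i hi => .inl (s6 c i hi),
      fun c u hu => .inl (s7 c u hu)⟩
    · rintro _ ⟨s, -, rfl⟩
      exact th_sup j w s
    · rintro s (hs | ⟨-, w, -, hs⟩)
      · exact s3 s hs
      · exact g2 w s hs
    · rintro _ ⟨⟨_ | ⟨w, A⟩, u⟩, rfl⟩
      · simp only [gc_nil, base_X b]
        split_ifs with l
        · exact Algebra.adjoin_mono Set.subset_union_left (s4 u l)
        · exact zero_mem _
      · simp only [gc_cons]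
        refine map_mem_adjoin _ (fun s hs => ?_)
          ((t2 w).ge (Algebra.subset_adjoin ⟨(A, u), rfl⟩))
        by_cases g : fv (child L w)
        · by_cases k : th Ps j w s ∈ X '' Set.Iio (Ps.getD (j + 1) []).length
          · obtain ⟨m, hm, k⟩ := k
            rw [← k]
            exact Algebra.adjoin_mono Set.subset_union_left (s4 m hm)
          · exact Algebra.subset_adjoin (.inr ⟨k, w, g, s, hs, rfl⟩)
        · exact Algebra.subset_adjoin (.inl (s5 w g ⟨s, hs, rfl⟩))

section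
variable {α : Type} [Primcodable α]

theorem pr_thc : PR fun p : List (List Tm) × ℕ × List ℕ × ℕ => thc p.1 p.2.1 p.2.2.1 p.2.2.2 := by
  have h1 : PR fun p : List (List Tm) × ℕ × List ℕ × ℕ => p.1.getD (p.2.1 + 1) [] :=
    pr_getD' _ (by fun_prop) (by fun_prop)
  have h2 : PR fun p : List (List Tm) × ℕ × List ℕ × ℕ => p.1.getD (p.2.1 + 2) [] :=
    pr_getD' _ (by fun_prop) (by fun_prop)
  unfold thc
  refine PR.cond (PR.blt (by fun_prop) h2.length) (PR.sbT (PR.var ?_) (pr_getD' _ h2 (by fun_prop)))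
    (PR.var (PR.add h1.length (by fun_prop)))
  have h3 := PR.comp' (g := fun q : (List (List Tm) × ℕ × List ℕ × ℕ) × ℕ => q.1) h1.length
    (by fun_prop)
  unfold ke
  exact PR.cond (PR.blt (by fun_prop) h3) (by fun_prop) (PR.add h3 (by fun_prop))

theorem PR.base {P : α → List (List Tm)} {j h u : α → ℕ} {L : α → List At} (h1 : PR P)
    (h2 : PR j) (h3 : PR L) (h4 : PR h) (h5 : PR u) :
    PR fun x => base (P x) (j x) (L x) (h x) (u x) := by
  unfold LD.base
  exact PR.cond (PR.and (by fun_prop) (pr_evb.comp' h3)) (pr_getD' _ (pr_getD' _ h1 h2) h5)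
    (PR.cond (PR.blt h5 (PR.length (pr_getD' _ h1 (by fun_prop)))) (by fun_prop) (by fun_prop))

theorem PR.gc {P : α → List (List Tm)} {h u : α → ℕ} {L : α → List At} {A : α → List (List ℕ)}
    (h1 : PR P) (h3 : PR L) (h4 : PR h) (hA : PR A) (h5 : PR u) :
    PR fun x => gc (P x) 0 (L x) (h x) (A x) (u x) := by
  unfold LD.gc
  refine PR.cond (by fun_prop) (by fun_prop) (PR.snd (PR.foldr hA (PR.pair (by fun_prop)
    (PR.base h1 (by fun_prop) ?_ (by fun_prop) h5)) (PR.pair (by fun_prop) (PR.sbT ?_ ?_))))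
  · exact PR.foldr (Primrec.list_reverse.comp hA) h3
      (PR.comp' (g := fun p : α × List ℕ × List At => (p.2.2, p.2.1)) pr_child (by fun_prop))
  · exact PR.comp' (g := fun p : (α × List ℕ × ℕ × Tm) × ℕ =>
      (P p.1.1, p.1.2.2.1 - 1, p.1.2.1, p.2)) pr_thc (by fun_prop)
  · fun_prop

end

end Pool.Agent.Lib.MP_9f1eae_lc.LD
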