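import Mathlib
import Pool.Agent.Lib.MP_9f1eae_lc.SoftMain
import Pool.Agent.Lib.MP_9f1eae_lc.LD.Lad
import Pool.Agent.Lib.MP_9f1eae_lc.LD.Hier

/-! Collapse of the ladders gives arithmetic bases. -/

namespace Pool.Agent.Lib.MP_9f1eae_lc.LD

open Pool.Agent.Lib.MP_3d42d9_lc Pool.Agent.Lib.MP_9f1eae_lc MvPolynomial

/-- An arithmetic path through an arithmetic system of extensions. -/
theorem ar_path {St : List ℕ × ℕ × List ℕ → Prop} (hS : Ar St) {Inv : List ℕ → Prop} (h0 : Inv [])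
    (hs : ∀ b l, Inv b → ∃ b', St (b, l, b')) (hi : ∀ b l b', St (b, l, b') → Inv b') :
    ∃ β : ℕ → List ℕ, (∀ l, Inv (β l)) ∧ (∀ l, St (β l, l, β (l + 1))) ∧
      Ar fun x : ℕ => ∃ l, x ∈ β l := by
  let S : ℕ × ℕ × ℕ → Prop := fun p => St (dec (List ℕ) p.1, p.2.1, dec (List ℕ) p.2.2)
  have aS : Ar S := hS.comp (by fun_prop)
  let L : ℕ × ℕ × ℕ → Prop := fun p => S p ∧ ∀ k, Nat.blt k p.2.2 = true → ¬ S (p.1, p.2.1, k)
  have aL : Ar L := aS.and (Ar.all (P := fun q : (ℕ × ℕ × ℕ) × ℕ =>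
    Nat.blt q.2 q.1.2.2 = true → ¬ S (q.1.1, q.1.2.1, q.2))
      ((Ar.bool (by fun_prop)).imp (aS.comp (by fun_prop)).not))
  let k0 := Encodable.encode ([] : List ℕ)
  let κ : ℕ → ℕ := fun l => Nat.rec k0 (fun l k => sInf {k' | S (k, l, k')}) l
  have st : ∀ l, Inv (dec _ (κ l)) → S (κ l, l, κ (l + 1)) := fun l h => by
    obtain ⟨b, hb⟩ := hs _ l h
    exact Nat.sInf_mem (s := {k' | S (κ l, l, k')})
      ⟨Encodable.encode b, by simpa only [Set.mem_ofPred_eq, S, dec_encode] using hb⟩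
  have inv : ∀ l, Inv (dec _ (κ l)) := fun l => by
    induction l with
    | zero => simpa only [κ, k0, Nat.rec_zero, dec_encode] using h0
    | succ l ih => exact hi _ _ _ (st l ih)
  have uq : ∀ l k, L (κ l, l, k) ↔ k = κ (l + 1) := fun l k => by
    refine ⟨fun h => le_antisymm (not_lt.1 fun m => ?_)
      (Nat.sInf_le (s := {k' | S (κ l, l, k')}) h.1), ?_⟩
    · exact h.2 _ (by simpa using m) (st l (inv l))
    · rintro rfl
      exact ⟨st l (inv l), fun k m =>
        Nat.notMem_of_lt_sInf (s := {k' | S (κ l, l, k')}) (by simpa using m)⟩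
  refine ⟨fun l => dec _ (κ l), inv, fun l => st l (inv l), ?_⟩
  have a1 : Ar fun q : ℕ × List ℕ × ℕ => ∀ i, Nat.blt i q.2.2 = true →
      L (q.2.1.getD i 0, i, q.2.1.getD (i + 1) 0) :=
    Ar.all (P := fun r : (ℕ × List ℕ × ℕ) × ℕ => Nat.blt r.2 r.1.2.2 = true →
      L (r.1.2.1.getD r.2 0, r.2, r.1.2.1.getD (r.2 + 1) 0))
      ((Ar.bool (by fun_prop)).imp (aL.comp (CP.pair (by fun_prop) (CP.pair (by fun_prop)
        (CP.getD _ (by fun_prop) (CP.of_pr (by fun_prop)))))))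
  have a2 : Ar fun q : ℕ × List ℕ × ℕ => ((q.2.1.getD 0 0 == k0) &&
      mb q.1 (dec (List ℕ) (q.2.1.getD q.2.2 0))) = true := Ar.bool (by fun_prop)
  refine (a1.and a2).ex.congr fun x => ⟨fun ⟨l, h⟩ => ?_, fun ⟨⟨H, l⟩, h1, h2⟩ => ⟨l, ?_⟩⟩
  · have g : ∀ i ≤ l, ((List.range (l + 1)).map κ).getD i 0 = κ i := fun i m => by
      simp [List.getD_eq_getElem?_getD, List.getElem?_range (Nat.lt_succ_of_le m)]
    refine ⟨((List.range (l + 1)).map κ, l), fun i m => ?_, ?_⟩
    · have m' : i < l := by simpa using m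
      simp only [g i m'.le, g (i + 1) m']
      exact (uq _ _).2 rfl
    · simp only [g 0 l.zero_le, g l le_rfl, Bool.and_eq_true, beq_iff_eq, mb_iff]
      exact ⟨rfl, h⟩
  · simp only [Bool.and_eq_true, beq_iff_eq, mb_iff] at h1 h2
    have g : ∀ i ≤ l, H.getD i 0 = κ i := fun i m => by
      induction i with
      | zero => exact h2.1
      | succ i ih =>
        have := h1 i (by simpa using m)
        rw [ih (Nat.le_of_succ_le m)] at this
        exact (uq _ _).1 this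
    exact (g l le_rfl ▸ h2.2 : x ∈ dec (List ℕ) (κ l))

section
variable (e : ℕ ≃ Pq)

/-- The tuple of the entries of a list. -/
def tb (b : List ℕ) : {x // x ∈ b} → Pq := fun i => e i

/-- The subalgebra generated by the entries of a list. -/
noncomputable def Sp (b : List ℕ) : Subalgebra ℚ Pq := Algebra.adjoin ℚ (e '' {y | y ∈ b})

/-- The back-and-forth conditions. -/
def Tc : ℕ → List ℕ → Prop
  | 0, b => AlgebraicIndependent ℚ (tb e b)
  | j + 1, b => AlgebraicIndependent ℚ (tb e b) ∧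
      ∀ F : List ℕ, ∃ c : List ℕ, (∀ x ∈ b, x ∈ c) ∧ Tc j c ∧ ∀ x ∈ F, e x ∈ Sp e c

variable {e} {j : ℕ} {b c : List ℕ}

theorem Tc.ind (h : Tc e j b) : AlgebraicIndependent ℚ (tb e b) := by
  cases j with
  | zero => exact h
  | succ j => exact h.1

theorem Tc.pred (h : Tc e (j + 1) b) : Tc e j b := by
  induction j generalizing b with
  | zero => exact h.1
  | succ j ih => exact ⟨h.1, fun F => (h.2 F).imp fun c k => ⟨k.1, ih k.2.1, k.2.2⟩⟩

theorem range_tb (b : List ℕ) : Set.range (tb e b) = e '' {y | y ∈ b} := by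
  ext x
  exact ⟨fun ⟨i, h⟩ => ⟨i, i.2, h⟩, fun ⟨i, m, h⟩ => ⟨⟨i, m⟩, h⟩⟩

theorem exists_rep (h : ∀ x ∈ b, e x ∈ Sp e c) :
    ∃ φ : {x // x ∈ b} → MvPolynomial {x // x ∈ c} ℚ, ∀ i, aeval (tb e c) (φ i) = tb e b i := by
  have : ∀ i : {x // x ∈ b}, ∃ r, aeval (tb e c) r = tb e b i := fun i => by
    have := h i i.2
    rwa [Sp, ← range_tb, Algebra.adjoin_range_eq_range_aeval] at this
  exact ⟨fun i => (this i).choose, fun i => (this i).choose_spec⟩

theorem Tc.rel (hb : Tc e j b) (hc : Tc e j c) {φ : {x // x ∈ b} → MvPolynomial {x // x ∈ c} ℚ}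
    (h : ∀ i, aeval (tb e c) (φ i) = tb e b i) : LT j φ := by
  induction j generalizing b c with
  | zero => trivial
  | succ j ih =>
    obtain ⟨d, h1, h2, h3⟩ := hb.2 c
    obtain ⟨ψ, hψ⟩ := exists_rep h3
    refine ⟨_, fun i => ⟨i.1, h1 _ i.2⟩, ψ, fun i i' l => Subtype.ext (by simpa using l),
      fun i => h2.ind ?_, ih hc.pred h2 hψ⟩
    rw [aeval_aeval, aeval_X]
    simp only [hψ]
    exact h i

theorem std_ext (h : ∀ y ∈ b, ∃ k, X k = e y) (F : List ℕ) :
    ∃ c : List ℕ, (∀ x ∈ b, x ∈ c) ∧ (∀ y ∈ c, ∃ k, X k = e y) ∧ ∀ x ∈ F, e x ∈ Sp e c := by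
  refine ⟨b ++ F.flatMap fun x => (e x).vars.toList.map fun k => e.symm (X k),
    fun x m => List.mem_append_left _ m, fun y m => ?_, fun x m => ?_⟩
  · rcases List.mem_append.1 m with m | m
    · exact h y m
    · simp only [List.mem_flatMap, List.mem_map] at m
      obtain ⟨_, -, k, -, rfl⟩ := m
      exact ⟨k, by simp⟩
  · have := mem_supported_vars (e x)
    rw [supported_eq_adjoin_X] at this
    refine Algebra.adjoin_mono ?_ this
    rintro _ ⟨k, hk, rfl⟩
    exact ⟨e.symm (X k), List.mem_append_right _ (List.mem_flatMap.2 ⟨x, m,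
      List.mem_map.2 ⟨k, by simpa using hk, rfl⟩⟩), by simp⟩

theorem std_lt (h : ∀ y ∈ b, ∃ k, X k = e y) (N : ℕ) : LT N (tb e b) := by
  choose κ hκ using fun i : {x // x ∈ b} => h i i.2
  have : tb e b = fun i => X (κ i) := funext fun i => (hκ i).symm
  rw [this]
  exact LT.var N fun i i' l => Subtype.ext (e.injective (by rw [← hκ, ← hκ, l]))

theorem std_tc (h : ∀ y ∈ b, ∃ k, X k = e y) : Tc e j b := by
  induction j generalizing b with
  | zero => exact (std_lt h 1).indep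
  | succ j ih =>
    exact ⟨(std_lt h 1).indep, fun F => (std_ext h F).imp fun c k => ⟨k.1, ih k.2.1, k.2.2⟩⟩

theorem Tc.lt (h : Tc e j b) : LT j (tb e b) := by
  obtain ⟨c, -, h2, h3⟩ := std_ext (e := e) (b := []) (by simp) b
  obtain ⟨φ, hφ⟩ := exists_rep h3
  simpa only [hφ] using (h.rel (std_tc h2) hφ).comp (std_lt h2 j)

theorem good_ext {n : ℕ} (hc : Col n) (h : ∀ N, LT N (tb e b)) (F : List ℕ) :
    ∃ c : List ℕ, (∀ x ∈ b, x ∈ c) ∧ (∀ N, LT N (tb e c)) ∧ ∀ x ∈ F, e x ∈ Sp e c := by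
  classical
  obtain ⟨a, ⟨f⟩⟩ := Finite.exists_equiv_fin {x // x ∈ b}
  obtain ⟨c, q, q0, q1, q2, q3⟩ := ((h (n + 1 + 1)).res f.symm.injective).nat
    ((F.toFinset.biUnion fun x => (e x).vars).sup id + 1)
  obtain ⟨d, s, s0, s1, s2, s3⟩ := q3.nat a
  have k1 : ∀ w < d, s w ∈ Sp e (List.ofFn fun w : Fin d => e.symm (s w)) := fun w m =>
    Algebra.subset_adjoin ⟨e.symm (s w), List.mem_ofFn.2 ⟨⟨w, m⟩, rfl⟩, by simp⟩
  have k2 : ∀ v < c, X v ∈ Sp e (List.ofFn fun w : Fin d => e.symm (s w)) := fun v m => by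
    rw [← s2 ⟨v, m⟩]
    refine (Subalgebra.mem_comap _ _ _).1 (Algebra.adjoin_le ?_ (s1 ⟨v, m⟩))
    rintro _ ⟨w, hw, rfl⟩
    simpa using k1 w hw
  refine ⟨List.ofFn fun w : Fin d => e.symm (s w), fun x m => ?_, fun N => ?_, fun x m => ?_⟩
  · let i := f ⟨x, m⟩
    refine List.mem_ofFn.2 ⟨⟨i, i.2.trans_le s0⟩, e.symm_apply_eq.2 ?_⟩
    have k3 : aeval s (aeval q (tb e b (f.symm i))) = tb e b (f.symm i) := by
      refine (Algebra.adjoin_le (S := AlgHom.equalizer ((aeval s).comp (aeval q)) (AlgHom.id ℚ Pq))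
        ?_) (q1 i)
      rintro _ ⟨v, hv, rfl⟩
      simpa using s2 ⟨v, hv⟩
    rw [q2, aeval_X] at k3
    simpa [i, tb] using k3
  · choose g hg using fun i : {x // x ∈ List.ofFn fun w : Fin d => e.symm (s w)} =>
      List.mem_ofFn.1 i.2
    have : tb e _ = fun i => s (g i) := funext fun i => by rw [tb, ← hg]; simp
    rw [this]
    exact (hc.all s3 N).res fun i i' l => Subtype.ext (by rw [← hg, ← hg, l])
  · have := mem_supported_vars (e x)
    rw [supported_eq_adjoin_X] at this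
    refine Algebra.adjoin_le ?_ this
    rintro _ ⟨v, hv, rfl⟩
    have : id v ≤ (F.toFinset.biUnion fun x => (e x).vars).sup id :=
      Finset.le_sup (Finset.mem_biUnion.2 ⟨x, by simpa using m, hv⟩)
    exact k2 v (by simp only [id] at this; omega)

theorem good_tc {n : ℕ} (hc : Col n) (h : ∀ N, LT N (tb e b)) : Tc e j b := by
  induction j generalizing b with
  | zero => exact (h 1).indep
  | succ j ih =>
    exact ⟨(h 1).indep, fun F => (good_ext hc h F).imp fun c k => ⟨k.1, ih k.2.1, k.2.2⟩⟩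

theorem ind_iff : AlgebraicIndependent ℚ (tb e b) ↔
    ∀ t : Tm, (∀ x ∈ supp t, x ∈ b) → val e t = 0 → val (X : ℕ → Pq) t = 0 := by
  classical
  rw [algebraicIndependent_iff]
  refine ⟨fun h t m l => ?_, fun h r l => ?_⟩
  · let g : ℕ → MvPolynomial {x // x ∈ b} ℚ := fun j => if k : j ∈ b then X ⟨j, k⟩ else 0
    have := h (val g t) ((map_val' _ g e t fun j k => by simp [g, m j k, tb]).trans l)
    rw [← map_val' (rename Subtype.val) g X t fun j k => by simp [g, m j k], this, map_zero]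
  · obtain ⟨t, h1, h2⟩ := exists_term (X : ℕ → Pq) {x | x ∈ b} (x := rename Subtype.val r) (by
      rw [← supported_eq_adjoin_X, supported_eq_range_rename]
      exact ⟨r, rfl⟩)
    refine rename_injective _ Subtype.val_injective ?_
    rw [← h1, map_zero]
    refine h t h2 ?_
    rw [← map_val' (aeval e) X e t fun j _ => aeval_X _ _, h1, aeval_rename]
    exact l

theorem sp_iff {x : Pq} : x ∈ Sp e b ↔ ∃ t : Tm, (∀ y ∈ supp t, y ∈ b) ∧ val e t = x :=
  ⟨fun h => (exists_term e _ h).imp fun _ k => ⟨k.2, k.1⟩, fun ⟨_, h1, h2⟩ =>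
    h2 ▸ val_mem _ _ _ fun y m => Algebra.subset_adjoin ⟨y, h1 y m, rfl⟩⟩

variable {O : Ops} (hS : O.Sound e) (ca : CP fun p : ℕ × ℕ => O.add p.1 p.2)
  (cm : CP fun p : ℕ × ℕ => O.mul p.1 p.2)
include hS ca cm

theorem ar_sp : Ar fun p : ℕ × List ℕ => e p.1 ∈ Sp e p.2 := by
  have : CP fun q : (ℕ × List ℕ) × Tm =>
      ((supp q.2).all fun y => mb y q.1.2) && O.chkV q.2 q.1.1 :=
    CP.and (CP.all (cp_supp.comp' (by fun_prop)) (by fun_prop))
      (Ops.cp_chkV ca cm (by fun_prop) (by fun_prop))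
  refine (Ar.bool this).ex.congr fun p => ?_
  simp only [sp_iff, Bool.and_eq_true, List.all_eq_true, mb_iff, hS.chkV]

theorem ar_ind : Ar fun b : List ℕ => AlgebraicIndependent ℚ (tb e b) := by
  have h1 : CP fun q : List ℕ × Tm => (supp q.2).all fun y => mb y q.1 :=
    CP.all (cp_supp.comp' (by fun_prop)) (by fun_prop)
  have h2 : CP fun q : List ℕ × Tm => O.chkV q.2 O.z :=
    Ops.cp_chkV ca cm (by fun_prop) (by fun_prop)
  have h3 : CP fun q : List ℕ × Tm => eqV q.2 (0, [], []) :=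
    CP.of_pr (by unfold eqV; fun_prop)
  refine ((Ar.bool h1).imp ((Ar.bool h2).imp (Ar.bool h3))).all.congr fun b => ?_
  have h4 : ∀ t : Tm, eqV t (0, [], []) = true ↔ val (X : ℕ → Pq) t = 0 := fun t => by
    rw [eqV, eqP_iff, ← val_eq_iff]
    simp [val]
  simp only [ind_iff, List.all_eq_true, mb_iff, hS.chkV, hS.z, h4]

theorem ar_tc (j : ℕ) : Ar (Tc e j) := by
  induction j with
  | zero => exact ar_ind hS ca cm
  | succ j ih =>
    have h1 : CP fun q : (List ℕ × List ℕ) × List ℕ => q.1.1.all fun y => mb y q.2 :=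
      CP.all (by fun_prop) (by fun_prop)
    have h2 : Ar fun q : (List ℕ × List ℕ) × List ℕ => ∀ x, mb x q.1.2 = true → e x ∈ Sp e q.2 :=
      Ar.all (P := fun r : ((List ℕ × List ℕ) × List ℕ) × ℕ =>
        mb r.2 r.1.1.2 = true → e r.2 ∈ Sp e r.1.2) ((Ar.bool (by fun_prop)).imp
          ((ar_sp hS ca cm).comp (g := fun r : ((List ℕ × List ℕ) × List ℕ) × ℕ => (r.2, r.1.2))
            (by fun_prop)))
    refine ((ar_ind hS ca cm).and ((Ar.bool h1).and ((ih.comp
      (g := fun q : (List ℕ × List ℕ) × List ℕ => q.2) (by fun_prop)).and h2)).ex.all).congr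
        fun b => ?_
    simp only [Tc, List.all_eq_true, mb_iff]

end

theorem pos {n : ℕ} (hc : Col n) (add mul : ℕ → ℕ → ℕ) (e : ℕ ≃ MvPolynomial ℕ ℚ)
    (ca : Computable₂ add) (cm : Computable₂ mul)
    (hadd : ∀ i j, e (add i j) = e i + e j) (hmul : ∀ i j, e (mul i j) = e i * e j) :
    ∃ B : Set ℕ, IsArith B ∧ AlgebraicIndependent ℚ (fun b : B => e b) ∧
      Algebra.adjoin ℚ (e '' B) = ⊤ := by
  let O : Ops := ⟨add, mul, e.symm 0, e.symm 1⟩
  have hS : O.Sound e := ⟨hadd, hmul, e.apply_symm_apply _, e.apply_symm_apply _⟩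
  have ca' : CP fun p : ℕ × ℕ => O.add p.1 p.2 := ca
  have cm' : CP fun p : ℕ × ℕ => O.mul p.1 p.2 := cm
  have h0 : CP fun q : List ℕ × ℕ × List ℕ => q.1.all fun y => mb y q.2.2 :=
    CP.all (by fun_prop) (by fun_prop)
  obtain ⟨β, h1, h2, h3⟩ := ar_path ((Ar.bool h0).and (((ar_tc hS ca' cm' n).comp
    (g := fun q : List ℕ × ℕ × List ℕ => q.2.2) (by fun_prop)).and ((ar_sp hS ca' cm').comp
      (g := fun q : List ℕ × ℕ × List ℕ => q.2) (by fun_prop)))) (Inv := Tc e n)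
    (std_tc (by simp)) (fun b l h => by
      obtain ⟨c, k1, k2, k3⟩ := good_ext hc (hc.all h.lt) [l]
      exact ⟨c, by simpa only [List.all_eq_true, mb_iff] using k1, good_tc hc k2, k3 l (by simp)⟩)
    fun b l c h => h.2.1
  simp only [List.all_eq_true, mb_iff] at h2
  have mono : Monotone fun l => e '' {x | x ∈ β l} := monotone_nat_of_le_succ fun l =>
    Set.image_mono (h2 l).1
  have im : e '' {n | ∃ l, n ∈ β l} = ⋃ l, e '' {x | x ∈ β l} := by
    rw [← Set.image_iUnion, Set.ofPred_exists]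
  refine ⟨{n | ∃ l, n ∈ β l}, Ar.isArith h3, ?_, eq_top_iff.2 fun r _ => ?_⟩
  · have := algebraicIndependent_iUnion_of_directed mono.directed_le fun l => by
      have := (h1 l).ind.coe_range
      rwa [range_tb] at this
    rw [← im] at this
    exact this.comp (fun b : {n | ∃ l, n ∈ β l} => ⟨e b, b, b.2, rfl⟩)
      fun b b' l => Subtype.ext (e.injective (congrArg Subtype.val l))
  · obtain ⟨l, rfl⟩ := e.surjective r
    rw [im]
    exact Algebra.adjoin_mono (Set.subset_iUnion (fun l => e '' {x | x ∈ β l}) (l + 1)) (h2 l).2.2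

end Pool.Agent.Lib.MP_9f1eae_lc.LD
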