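import Mathlib
import Pool.Agent.Lib.MP_9f1eae_lc.LD.Pos
import Pool.Agent.Lib.MP_9f1eae_lc.LD.Neg

/-! Arithmetic bases exist in all computable copies iff the ladders collapse. -/

namespace Pool.Agent.Lib.MP_9f1eae_lc.LD

theorem ladder_iff :
    (∀ (add mul : ℕ → ℕ → ℕ) (e : ℕ ≃ MvPolynomial ℕ ℚ), Computable₂ add → Computable₂ mul →
      (∀ i j, e (add i j) = e i + e j) → (∀ i j, e (mul i j) = e i * e j) →
      ∃ B : Set ℕ, IsArith B ∧ AlgebraicIndependent ℚ (fun b : B => e b) ∧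
        Algebra.adjoin ℚ (e '' B) = ⊤) ↔
    ∃ n, ∀ (a c : ℕ) (p : Fin a → MvPolynomial (Fin c) ℚ), Lad n p → Lad (n + 1) p := by
  simp only [← col_iff]
  refine ⟨fun h => by_contra fun k => ?_,
    fun ⟨n, hn⟩ add mul e ca cm h1 h2 => pos hn add mul e ca cm h1 h2⟩
  obtain ⟨add, mul, e, ca, cm, h1, h2, h3⟩ := neg (not_exists.1 k)
  obtain ⟨B, b1, b2, b3⟩ := h add mul e ca cm h1 h2
  exact h3 B b1 b2 b3

end Pool.Agent.Lib.MP_9f1eae_lc.LD
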